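import Mathlib

/-! Definitions for nef line bundles on quotients of point blow-ups of abelian varieties. -/

set_option autoImplicit false

namespace Pool.Agent.H19.TPB

open Finset Complex

variable {V : Type*} [NormedAddCommGroup V] [NormedSpace ℂ V]

/-- `j` is a holomorphic nowhere zero factor of automorphy of `Γ` whose restriction to the lattice
`Λ` is the factor of Appell and Humbert of the Hermitian form `H` and some `α`, `|α| = 1`. -/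
structure IsFactor (Γ : Subgroup (V ≃ᵃ[ℂ] V)) (Λ : AddSubgroup V)
    (H : V →ₗ[ℂ] V →ₛₗ[starRingEnd ℂ] ℂ) (j : (V ≃ᵃ[ℂ] V) → V → ℂ) : Prop where
  diff : ∀ γ ∈ Γ, Differentiable ℂ (j γ)
  ne_zero : ∀ γ ∈ Γ, ∀ v, j γ v ≠ 0
  mul : ∀ γ ∈ Γ, ∀ δ ∈ Γ, ∀ v, j (γ * δ) v = j γ (δ v) * j δ v
  ah : ∃ α : V → ℂ, (∀ l ∈ Λ, ‖α l‖ = 1) ∧ ∀ l ∈ Λ, ∀ v,
    j (AffineEquiv.constVAdd ℂ V l) v = α l * cexp (Real.pi * H v l + Real.pi / 2 * H l l)

/-- The `m`-th power of the line bundle on `V / Γ` with factor of automorphy `j` is generated by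
its global sections. -/
def GlobGen (Γ : Subgroup (V ≃ᵃ[ℂ] V)) (j : (V ≃ᵃ[ℂ] V) → V → ℂ) (m : ℕ) : Prop :=
  ∀ v₀ : V, ∃ s : V → ℂ, Differentiable ℂ s ∧ (∀ γ ∈ Γ, ∀ v, s (γ v) = j γ v ^ m * s v) ∧ s v₀ ≠ 0

/-- `N - ∑ b(p) E_p` is nonnegative on the strict transforms of the elliptic curves of `V / Λ`: if
`l`, `c l` is a basis of the lattice of a complex line, and `F` a finite set of points of a
translate of this line which are different modulo `Λ`, then `∑ b(q)` over `F` is at most the degree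
`|Im H (l, c l)|` of `N` on the elliptic curve. -/
def CurveNonneg (Λ : AddSubgroup V) (H : V →ₗ[ℂ] V →ₛₗ[starRingEnd ℂ] ℂ) (b : V → ℝ) : Prop :=
  ∀ p l : V, ∀ c : ℂ, l ∈ Λ → l ≠ 0 → c • l ∈ Λ → c.im ≠ 0 →
    (∀ d : ℂ, d • l ∈ Λ → ∃ s t : ℤ, d = s + t * c) →
    ∀ F : Finset V, (∀ q ∈ F, ∃ d : ℂ, q = p + d • l) →
      (∀ q ∈ F, ∀ q' ∈ F, q - q' ∈ Λ → q = q') → ∑ q ∈ F, b q ≤ |(H l (c • l)).im|

end Pool.Agent.H19.TPB
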