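import Mathlib

/-! Blichfeldt's lemma for balls of different radii. -/

set_option autoImplicit false

namespace Pool.Agent.H19.TPB

open Finset

/-- the cut-off function of the point `p` with weight `b` -/
noncomputable def cut {E : Type*} [NormedAddCommGroup E] (c b : ℝ) (y : E) : ℝ :=
  max 0 (1 - ‖y‖ ^ 2 / (c * b))

theorem cut_nonneg {E : Type*} [NormedAddCommGroup E] (c b : ℝ) (y : E) : 0 ≤ cut c b y :=
  le_max_left _ _

theorem cut_of_pos {E : Type*} [NormedAddCommGroup E] {c b : ℝ} {y : E} (h : 0 < cut c b y) :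
    cut c b y = 1 - ‖y‖ ^ 2 / (c * b) := by
  unfold cut at h ⊢
  rcases lt_max_iff.1 h with h1 | h1
  · exact absurd h1 (lt_irrefl _)
  · exact max_eq_right h1.le

private theorem variance {E : Type*} [NormedAddCommGroup E] [InnerProductSpace ℝ E] {ι : Type*}
    (s : Finset ι) (f : ι → ℝ) (y : ι → E) :
    ∑ i ∈ s, ∑ j ∈ s, f i * f j * ‖y i - y j‖ ^ 2 ≤
      2 * ((∑ i ∈ s, f i) * ∑ i ∈ s, f i * ‖y i‖ ^ 2) := by
  have h1 : ∀ i j, f i * f j * ‖y i - y j‖ ^ 2 =
      (f i * ‖y i‖ ^ 2) * f j + f i * (f j * ‖y j‖ ^ 2) -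
        2 * inner ℝ (f i • y i) (f j • y j) := by
    intro i j
    rw [norm_sub_sq_real, real_inner_smul_left, real_inner_smul_right]
    ring
  have h2 : ∑ i ∈ s, ∑ j ∈ s, inner ℝ (f i • y i) (f j • y j) = ‖∑ i ∈ s, f i • y i‖ ^ 2 := by
    rw [← real_inner_self_eq_norm_sq, sum_inner]
    refine Finset.sum_congr rfl fun i _ => ?_
    rw [inner_sum]
  have h3 : ∑ i ∈ s, ∑ j ∈ s, f i * f j * ‖y i - y j‖ ^ 2 =
      2 * ((∑ i ∈ s, f i) * ∑ i ∈ s, f i * ‖y i‖ ^ 2) - 2 * ‖∑ i ∈ s, f i • y i‖ ^ 2 := by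
    rw [← h2]
    simp only [h1, Finset.sum_sub_distrib, Finset.sum_add_distrib, ← Finset.mul_sum,
      ← Finset.sum_mul]
    ring
  rw [h3]
  nlinarith [sq_nonneg ‖∑ i ∈ s, f i • y i‖]

theorem blich {E : Type*} [NormedAddCommGroup E] [InnerProductSpace ℝ E] {ι : Type*}
    (s : Finset ι) {c : ℝ} (hc : 0 < c) (b : ι → ℝ) (hb : ∀ i ∈ s, 0 < b i) (P : ι → E)
    (hd : ∀ i ∈ s, ∀ j ∈ s, i ≠ j → c * (b i + b j) ≤ ‖P i - P j‖ ^ 2) (x : E) :
    ∑ i ∈ s, cut c (b i) (x - P i) ≤ 1 := by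
  classical
  set f : ι → ℝ := fun i => cut c (b i) (x - P i) with hf
  set s' : Finset ι := s.filter (fun i => 0 < f i) with hs'
  have hsum : ∑ i ∈ s, f i = ∑ i ∈ s', f i := by
    rw [hs', Finset.sum_filter]
    refine Finset.sum_congr rfl fun i _ => ?_
    by_cases h : 0 < f i
    · rw [if_pos h]
    · rw [if_neg h]
      exact le_antisymm (not_lt.1 h) (cut_nonneg _ _ _)
  rw [hsum]
  by_contra hcon
  push Not at hcon
  set W : ℝ := ∑ i ∈ s', f i with hW
  have hfpos : ∀ i ∈ s', 0 < f i := fun i hi => (mem_filter.1 hi).2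
  have hss : ∀ i ∈ s', i ∈ s := fun i hi => (mem_filter.1 hi).1
  have hdist : ∀ i ∈ s', ‖P i - x‖ ^ 2 = c * b i * (1 - f i) := by
    intro i hi
    have h1 : f i = 1 - ‖x - P i‖ ^ 2 / (c * b i) := cut_of_pos (hfpos i hi)
    have h2 : 0 < c * b i := mul_pos hc (hb i (hss i hi))
    have h3 : c * b i ≠ 0 := h2.ne'
    rw [norm_sub_rev, h1, sub_sub_cancel, mul_div_cancel₀ _ h3]
  have hvar := variance s' f (fun i => P i - x)
  have h1 : ∑ i ∈ s', ∑ j ∈ s', f i * f j * ‖(P i - x) - (P j - x)‖ ^ 2 ≥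
      2 * c * ∑ i ∈ s', b i * f i * (W - f i) := by
    have h2 : ∀ i ∈ s', ∀ j ∈ s', f i * f j * (c * (b i + b j)) -
        (if i = j then f i * f j * (c * (b i + b j)) else 0) ≤
        f i * f j * ‖(P i - x) - (P j - x)‖ ^ 2 := by
      intro i hi j hj
      have h3 : (P i - x) - (P j - x) = P i - P j := by abel
      rw [h3]
      by_cases hij : i = j
      · rw [if_pos hij, sub_self]
        have := mul_pos (hfpos i hi) (hfpos j hj)
        positivity
      · rw [if_neg hij, sub_zero]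
        exact mul_le_mul_of_nonneg_left (hd i (hss i hi) j (hss j hj) hij)
          (mul_pos (hfpos i hi) (hfpos j hj)).le
    refine le_trans (le_of_eq ?_)
      (Finset.sum_le_sum fun i hi => Finset.sum_le_sum fun j hj => h2 i hi j hj)
    have h4 : ∀ i ∈ s', ∑ j ∈ s', (f i * f j * (c * (b i + b j)) -
        (if i = j then f i * f j * (c * (b i + b j)) else 0)) =
        c * (b i * f i * W) + c * (f i * ∑ j ∈ s', b j * f j) - 2 * c * (b i * f i * f i) := by
      intro i hi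
      rw [Finset.sum_sub_distrib, Finset.sum_ite_eq, if_pos hi]
      have h5 : ∑ j ∈ s', f i * f j * (c * (b i + b j)) =
          c * (b i * f i) * ∑ j ∈ s', f j + c * f i * ∑ j ∈ s', b j * f j := by
        rw [Finset.mul_sum, Finset.mul_sum, ← Finset.sum_add_distrib]
        refine Finset.sum_congr rfl fun j _ => ?_
        ring
      rw [h5, ← hW]
      ring
    rw [Finset.sum_congr rfl h4, Finset.sum_sub_distrib, Finset.sum_add_distrib]
    have h6 : ∑ i ∈ s', c * (f i * ∑ j ∈ s', b j * f j) = c * (W * ∑ j ∈ s', b j * f j) := by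
      rw [← Finset.mul_sum, ← Finset.sum_mul]
    have h7 : ∑ i ∈ s', c * (b i * f i * W) = c * (W * ∑ j ∈ s', b j * f j) := by
      rw [← Finset.mul_sum, ← Finset.sum_mul]
      ring
    have h8 : ∑ i ∈ s', b i * f i * (W - f i) =
        W * ∑ j ∈ s', b j * f j - ∑ i ∈ s', b i * f i * f i := by
      rw [Finset.mul_sum, ← Finset.sum_sub_distrib]
      refine Finset.sum_congr rfl fun j _ => ?_
      ring
    rw [h6, h7, h8, ← Finset.mul_sum]
    ring
  have h9 : ∑ i ∈ s', f i * ‖P i - x‖ ^ 2 = c * ∑ i ∈ s', b i * f i * (1 - f i) := by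
    rw [Finset.mul_sum]
    refine Finset.sum_congr rfl fun i hi => ?_
    rw [hdist i hi]
    ring
  rw [← hW, h9] at hvar
  have h10 : ∑ i ∈ s', b i * f i * (W - f i) ≤ W * ∑ i ∈ s', b i * f i * (1 - f i) := by
    have h11 : 2 * c * ∑ i ∈ s', b i * f i * (W - f i) ≤
        2 * c * (W * ∑ i ∈ s', b i * f i * (1 - f i)) := by
      have := h1.le.trans hvar
      linarith
    exact le_of_mul_le_mul_left h11 (by positivity)
  rw [Finset.mul_sum] at h10
  have h12 : ∑ i ∈ s', b i * f i ^ 2 * (W - 1) ≤ 0 := by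
    have h13 : ∑ i ∈ s', b i * f i ^ 2 * (W - 1) =
        ∑ i ∈ s', b i * f i * (W - f i) - ∑ i ∈ s', W * (b i * f i * (1 - f i)) := by
      rw [← Finset.sum_sub_distrib]
      refine Finset.sum_congr rfl fun i _ => ?_
      ring
    rw [h13]
    linarith
  have hne : s'.Nonempty := by
    by_contra hn
    rw [not_nonempty_iff_eq_empty] at hn
    rw [hW, hn, Finset.sum_empty] at hcon
    linarith
  have h14 : 0 < ∑ i ∈ s', b i * f i ^ 2 * (W - 1) := by
    refine Finset.sum_pos (fun i hi => ?_) hne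
    have h15 := hfpos i hi
    have h16 := hb i (hss i hi)
    have h17 : 0 < W - 1 := by linarith
    positivity
  linarith

end Pool.Agent.H19.TPB
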