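import Pool.Agent.H19.TPB.Geo

/-! The crystallographic restriction for scalars. -/

set_option autoImplicit false

namespace Pool.Agent.H19.TPB

open Finset Complex

/-- the primitive `n`-th root of unity -/
noncomputable def zt (n : ℕ) : ℂ := cexp (2 * Real.pi * I / n)

theorem zt_eq (n : ℕ) : zt n = cexp ((2 * Real.pi / n : ℝ) * I) := by
  unfold zt
  congr 1
  push_cast
  ring

theorem zt_re (n : ℕ) : (zt n).re = Real.cos (2 * Real.pi / n) := by
  rw [zt_eq, Complex.exp_ofReal_mul_I_re]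

theorem zt_im (n : ℕ) : (zt n).im = Real.sin (2 * Real.pi / n) := by
  rw [zt_eq, Complex.exp_ofReal_mul_I_im]

theorem zt_norm (n : ℕ) : ‖zt n‖ = 1 := by
  rw [zt_eq, Complex.norm_exp_ofReal_mul_I]

theorem zt_four : (zt 4).re = 0 ∧ (zt 4).im = 1 := by
  have h : 2 * Real.pi / ((4 : ℕ) : ℝ) = Real.pi / 2 := by
    push_cast
    ring
  rw [zt_re, zt_im, h, Real.cos_pi_div_two, Real.sin_pi_div_two]
  exact ⟨rfl, rfl⟩

theorem zt_six : (zt 6).re = 1 / 2 ∧ (zt 6).im = √3 / 2 := by
  have h : 2 * Real.pi / ((6 : ℕ) : ℝ) = Real.pi / 3 := by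
    push_cast
    ring
  rw [zt_re, zt_im, h, Real.cos_pi_div_three, Real.sin_pi_div_three]
  exact ⟨rfl, rfl⟩

theorem cryst {V : Type*} [NormedAddCommGroup V] [NormedSpace ℂ V] [FiniteDimensional ℂ V]
    {m : ℕ} (Λ : AddSubgroup V) (e : Module.Basis (Fin m) ℝ V)
    (hΛe : ∀ l : V, l ∈ Λ ↔ ∃ k : Fin m → ℤ, l = ∑ i, (k i : ℝ) • e i)
    (hne : ∃ l ∈ Λ, l ≠ 0) (n : ℕ) (hn : 4 ≤ n) (hmul : ∀ l ∈ Λ, zt n • l ∈ Λ) :
    n = 4 ∨ n = 6 := by
  by_contra hcon
  push Not at hcon
  obtain ⟨l0, hl0, hl00⟩ := hne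
  obtain ⟨l, ⟨hl1, hl2⟩, hmin⟩ := exists_short Λ e hΛe {y | y ∈ Λ ∧ y ≠ 0}
    (fun y hy => hy.1) ⟨l0, hl0, hl00⟩
  have hlpos : 0 < ‖l‖ := norm_pos_iff.2 hl2
  have key : ∀ c : ℂ, c • l ∈ Λ → c ≠ 0 → 1 ≤ ‖c‖ := by
    intro c hc hc0
    have := hmin (c • l) ⟨hc, smul_ne_zero hc0 hl2⟩
    rw [norm_smul] at this
    by_contra h
    push Not at h
    nlinarith
  have hn0 : (0 : ℝ) < n := by
    have : 0 < n := by omega
    exact_mod_cast this
  rcases Nat.lt_or_ge n 7 with h7 | h7
  · -- `n = 5`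
    have h5 : n = 5 := by omega
    subst h5
    have hpow : zt 5 ^ 4 = (zt 5)⁻¹ := by
      have h1 : zt 5 ^ 5 = 1 := by
        rw [zt, ← Complex.exp_nat_mul, Complex.exp_eq_one_iff]
        refine ⟨1, ?_⟩
        push_cast
        ring
      have h0 : zt 5 ≠ 0 := by
        intro h0
        have := zt_norm 5
        rw [h0, norm_zero] at this
        exact zero_ne_one this
      field_simp
      exact h1
    have hconj : (zt 5)⁻¹ = (starRingEnd ℂ) (zt 5) := by
      rw [Complex.inv_def, Complex.normSq_eq_norm_sq, zt_norm]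
      simp
    have hmem : (zt 5 + zt 5 ^ 4) • l ∈ Λ := by
      rw [add_smul]
      refine Λ.add_mem (hmul l hl1) ?_
      have h1 := hmul _ (hmul _ (hmul _ (hmul _ hl1)))
      have h2 : zt 5 ^ 4 • l = zt 5 • zt 5 • zt 5 • zt 5 • l := by
        simp only [smul_smul]
        congr 1
        ring
      rw [h2]
      exact h1
    have hval : zt 5 + zt 5 ^ 4 = ((2 * Real.cos (2 * Real.pi / 5) : ℝ) : ℂ) := by
      rw [hpow, hconj]
      apply Complex.ext
      · rw [Complex.add_re, Complex.conj_re, zt_re, Complex.ofReal_re]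
        push_cast
        ring
      · rw [Complex.add_im, Complex.conj_im, Complex.ofReal_im]
        ring
    have hpi := Real.pi_pos
    have hcos1 : Real.cos (2 * Real.pi / 5) < 1 / 2 := by
      rw [← Real.cos_pi_div_three]
      apply Real.cos_lt_cos_of_nonneg_of_le_pi (by positivity) (by linarith) (by linarith)
    have hcos0 : 0 < Real.cos (2 * Real.pi / 5) := by
      apply Real.cos_pos_of_mem_Ioo
      constructor <;> linarith
    rw [hval] at hmem
    have h1 := key _ hmem (by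
      intro h
      rw [Complex.ofReal_eq_zero] at h
      linarith)
    rw [Complex.norm_real, Real.norm_eq_abs, abs_of_pos (by positivity)] at h1
    linarith
  · -- `n ≥ 7`
    have hpi := Real.pi_pos
    have hn7 : (7 : ℝ) ≤ n := by exact_mod_cast h7
    have hθ : 2 * Real.pi / n < Real.pi / 3 := by
      rw [div_lt_div_iff₀ hn0 (by norm_num)]
      nlinarith
    have hcos : 1 / 2 < Real.cos (2 * Real.pi / n) := by
      rw [← Real.cos_pi_div_three]
      exact Real.cos_lt_cos_of_nonneg_of_le_pi (by positivity) (by linarith) hθ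
    have hsin : 0 < Real.sin (2 * Real.pi / n) := by
      apply Real.sin_pos_of_pos_of_lt_pi (by positivity)
      linarith
    have hmem : (zt n - 1) • l ∈ Λ := by
      rw [sub_smul, one_smul]
      exact Λ.sub_mem (hmul l hl1) hl1
    have h1 := key _ hmem (by
      intro h
      have h2 := congrArg Complex.im h
      rw [Complex.sub_im, zt_im, Complex.one_im, Complex.zero_im] at h2
      linarith)
    have h2 : ‖zt n - 1‖ ^ 2 = 2 - 2 * Real.cos (2 * Real.pi / n) := by
      rw [Complex.sq_norm, Complex.normSq_apply, Complex.sub_re, Complex.sub_im, Complex.one_re,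
        Complex.one_im, zt_re, zt_im]
      nlinarith [Real.sin_sq_add_cos_sq (2 * Real.pi / n)]
    have h3 := pow_le_pow_left₀ zero_le_one h1 2
    rw [h2] at h3
    linarith

end Pool.Agent.H19.TPB
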