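import Pool.Agent.H19.TPB.Cryst

/-! The distance bound between two blown-up points. -/

set_option autoImplicit false
set_option linter.unusedSectionVars false

namespace Pool.Agent.H19.TPB

open Finset Complex

variable {V : Type*} [NormedAddCommGroup V] [NormedSpace ℂ V] [FiniteDimensional ℂ V]

theorem smul_diag (H : V →ₗ[ℂ] V →ₛₗ[starRingEnd ℂ] ℂ) (g : ℂ) (x : V) :
    (H (g • x) (g • x)) = ((‖g‖ ^ 2 : ℝ) : ℂ) * H x x := by
  have h1 : H (g • x) = g • H x := H.map_smul g x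
  rw [h1, LinearMap.smul_apply, LinearMap.map_smulₛₗ, smul_eq_mul, smul_eq_mul, ← mul_assoc,
    Complex.mul_conj, Complex.normSq_eq_norm_sq]

theorem smul_diag_re (H : V →ₗ[ℂ] V →ₛₗ[starRingEnd ℂ] ℂ) (g : ℂ) (x : V) :
    (H (g • x) (g • x)).re = ‖g‖ ^ 2 * (H x x).re := by
  rw [smul_diag, Complex.re_ofReal_mul]

theorem im_smul (H : V →ₗ[ℂ] V →ₛₗ[starRingEnd ℂ] ℂ)
    (hherm : ∀ v w, H w v = starRingEnd ℂ (H v w)) (ζ : ℂ) (l : V) :
    (H l (ζ • l)).im = - (ζ.im * (H l l).re) := by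
  have h : (H l l).im = 0 := by
    have := congrArg Complex.im (hherm l l)
    rw [Complex.conj_im] at this
    linarith
  rw [LinearMap.map_smulₛₗ, smul_eq_mul, Complex.mul_im, Complex.conj_im, Complex.conj_re, h]
  ring

/-- translations from rotations -/
theorem rot_mul (Γ : Subgroup (V ≃ᵃ[ℂ] V))
    (Λ : AddSubgroup V) (hΛ : ∀ l : V, l ∈ Λ ↔ AffineEquiv.constVAdd ℂ V l ∈ Γ) (ζ : ℂ) (p : V)
    (γ : V ≃ᵃ[ℂ] V) (hγ : γ ∈ Γ) (h : ∀ v, γ v = p + ζ • (v - p)) (l : V) (hl : l ∈ Λ) :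
    ζ • l ∈ Λ := by
  rw [hΛ] at hl ⊢
  have h1 : AffineEquiv.constVAdd ℂ V (ζ • l) = γ * AffineEquiv.constVAdd ℂ V l * γ⁻¹ := by
    rw [eq_mul_inv_iff_mul_eq]
    ext v
    simp only [AffineEquiv.mul_def, AffineEquiv.trans_apply, AffineEquiv.constVAdd_apply, h,
      vadd_eq_add]
    module
  rw [h1]
  exact Γ.mul_mem (Γ.mul_mem hγ hl) (Γ.inv_mem hγ)

theorem rot_diff (Γ : Subgroup (V ≃ᵃ[ℂ] V))
    (Λ : AddSubgroup V) (hΛ : ∀ l : V, l ∈ Λ ↔ AffineEquiv.constVAdd ℂ V l ∈ Γ) (ζ : ℂ) (p q : V)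
    (γ δ : V ≃ᵃ[ℂ] V) (hγ : γ ∈ Γ) (h : ∀ v, γ v = p + ζ • (v - p))
    (hδ : δ ∈ Γ) (h' : ∀ v, δ v = q + ζ • (v - q)) :
    (1 - ζ) • (q - p) ∈ Λ := by
  rw [hΛ]
  have h1 : AffineEquiv.constVAdd ℂ V ((1 - ζ) • (q - p)) = δ * γ⁻¹ := by
    rw [eq_mul_inv_iff_mul_eq]
    ext v
    simp only [AffineEquiv.mul_def, AffineEquiv.trans_apply, AffineEquiv.constVAdd_apply, h, h',
      vadd_eq_add]
    module
  rw [h1]
  exact Γ.mul_mem hδ (Γ.inv_mem hγ)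

/-- the distance bound -/
theorem dist_bound {m : ℕ} (Λ : AddSubgroup V) (e : Module.Basis (Fin m) ℝ V)
    (hΛe : ∀ l : V, l ∈ Λ ↔ ∃ k : Fin m → ℤ, l = ∑ i, (k i : ℝ) • e i)
    (H : V →ₗ[ℂ] V →ₛₗ[starRingEnd ℂ] ℂ)
    (hherm : ∀ v w, H w v = starRingEnd ℂ (H v w))
    (hnef : ∀ v, 0 ≤ (H v v).re)
    (ζ : ℂ) (hζ : ‖ζ‖ = 1) (h0 : 0 ≤ ζ.re) (h1 : ζ.re ≤ 1 / 2) (him : 0 < ζ.im)
    (hmul : ∀ l ∈ Λ, ζ • l ∈ Λ) (b : V → ℝ)
    (hbΛ : ∀ p, ∀ l ∈ Λ, b (p + l) = b p)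
    (hcurve : ∀ p l : V, ∀ c : ℂ, l ∈ Λ → l ≠ 0 → c • l ∈ Λ → c.im ≠ 0 →
      (∀ d : ℂ, d • l ∈ Λ → ∃ s t : ℤ, d = s + t * c) →
      ∀ F : Finset V, (∀ q ∈ F, ∃ d : ℂ, q = p + d • l) →
        (∀ q ∈ F, ∀ q' ∈ F, q - q' ∈ Λ → q = q') → ∑ q ∈ F, b q ≤ |(H l (c • l)).im|)
    (p q : V) (hpq : p ≠ q) (hx : (1 - ζ) • (q - p) ∈ Λ) :
    1 / (2 * ζ.im) * (b p + b q) ≤ (H (q - p) (q - p)).re := by
  classical
  have hqp : q - p ≠ 0 := sub_ne_zero.2 (Ne.symm hpq)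
  have habs : ∀ l : V, |(H l (ζ • l)).im| = ζ.im * (H l l).re := by
    intro l
    rw [im_smul H hherm, abs_neg, abs_of_nonneg (mul_nonneg him.le (hnef l))]
  by_cases hqpΛ : q - p ∈ Λ
  · obtain ⟨l, hl, hl0, ⟨s, t, hst⟩, hgen⟩ := exists_gen Λ e hΛe ζ hζ h0 h1 him.ne' hmul (q - p)
      hqpΛ hqp
    have hg : ((s : ℂ) + t * ζ) ≠ 0 := by
      intro h
      rw [h, zero_smul] at hst
      exact hqp hst
    have h2 := hcurve p l ζ hl hl0 (hmul l hl) him.ne' hgen {p} (by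
      intro q' hq'
      rw [Finset.mem_singleton] at hq'
      exact ⟨0, by rw [hq', zero_smul, add_zero]⟩) (by
      intro q1 hq1 q2 hq2 _
      rw [Finset.mem_singleton] at hq1 hq2
      rw [hq1, hq2])
    rw [Finset.sum_singleton, habs] at h2
    have h3 : b q = b p := by
      rw [← hbΛ p (q - p) hqpΛ, add_sub_cancel]
    have h4 := one_le_normSq ζ hζ h0 h1 s t hg
    have h5 : (H (q - p) (q - p)).re = ‖(s : ℂ) + t * ζ‖ ^ 2 * (H l l).re := by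
      rw [hst, smul_diag_re]
    rw [h5, h3, one_div, inv_mul_le_iff₀ (by positivity)]
    have h6 := hnef l
    have h7 : (H l l).re ≤ ‖(s : ℂ) + t * ζ‖ ^ 2 * (H l l).re := le_mul_of_one_le_left h6 h4
    nlinarith [mul_le_mul_of_nonneg_left h7 him.le]
  · have hζ1 : 1 - ζ ≠ 0 := by
      intro h
      have := congrArg Complex.im h
      rw [Complex.sub_im, Complex.one_im, Complex.zero_im] at this
      linarith
    have hx0 : (1 - ζ) • (q - p) ≠ 0 := smul_ne_zero hζ1 hqp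
    obtain ⟨l, hl, hl0, ⟨s, t, hst⟩, hgen⟩ := exists_gen Λ e hΛe ζ hζ h0 h1 him.ne' hmul _
      hx hx0
    have hg : ((s : ℂ) + t * ζ) ≠ 0 := by
      intro h
      rw [h, zero_smul] at hst
      exact hx0 hst
    have h2 := hcurve p l ζ hl hl0 (hmul l hl) him.ne' hgen {p, q} (by
      intro q' hq'
      rw [Finset.mem_insert, Finset.mem_singleton] at hq'
      rcases hq' with hq' | hq'
      · exact ⟨0, by rw [hq', zero_smul, add_zero]⟩
      · refine ⟨(1 - ζ)⁻¹ * ((s : ℂ) + t * ζ), ?_⟩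
        rw [hq', mul_smul, ← hst, smul_smul, inv_mul_cancel₀ hζ1, one_smul, add_sub_cancel]) (by
      intro q1 hq1 q2 hq2 h12
      rw [Finset.mem_insert, Finset.mem_singleton] at hq1 hq2
      rcases hq1 with rfl | rfl <;> rcases hq2 with rfl | rfl
      · rfl
      · exact absurd (by rw [← neg_sub]; exact Λ.neg_mem h12) hqpΛ
      · exact absurd h12 hqpΛ
      · rfl)
    rw [Finset.sum_pair hpq, habs] at h2
    have h4 := one_le_normSq ζ hζ h0 h1 s t hg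
    have h5 : ‖1 - ζ‖ ^ 2 * (H (q - p) (q - p)).re = ‖(s : ℂ) + t * ζ‖ ^ 2 * (H l l).re := by
      rw [← smul_diag_re, hst, smul_diag_re]
    have h8 : ‖1 - ζ‖ ^ 2 ≤ 2 := by
      have h9 : ζ.re ^ 2 + ζ.im ^ 2 = 1 := by
        have := Complex.sq_norm ζ
        rw [hζ, Complex.normSq_apply] at this
        linarith
      rw [Complex.sq_norm, Complex.normSq_apply, Complex.sub_re, Complex.sub_im, Complex.one_re,
        Complex.one_im]
      nlinarith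
    rw [one_div, inv_mul_le_iff₀ (by positivity)]
    have h6 := hnef l
    have h10 := hnef (q - p)
    have h7 : (H l l).re ≤ ‖(s : ℂ) + t * ζ‖ ^ 2 * (H l l).re := le_mul_of_one_le_left h6 h4
    have h11 : (H l l).re ≤ 2 * (H (q - p) (q - p)).re := by
      rw [← h5] at h7
      exact h7.trans (mul_le_mul_of_nonneg_right h8 h10)
    nlinarith [mul_le_mul_of_nonneg_left h11 him.le]

end Pool.Agent.H19.TPB
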