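import Pool.Agent.H19.TPB.Gram
import Pool.Agent.H77.TQ.Norm

/-! The dichotomy for quotients of point blow-ups of abelian varieties. -/

set_option autoImplicit false
set_option linter.unusedSectionVars false

namespace Pool.Agent.H19.TPB

open Finset Complex

variable {V : Type*} [NormedAddCommGroup V] [NormedSpace ℂ V] [FiniteDimensional ℂ V]

theorem pi_four : (96 : ℝ) ≤ Real.pi ^ 4 := by
  have h := Real.pi_gt_d2
  have h1 : (3.14 : ℝ) ^ 4 ≤ Real.pi ^ 4 := pow_le_pow_left₀ (by norm_num) h.le 4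
  norm_num at h1 ⊢
  linarith

theorem pi_six : (227 : ℝ) ≤ Real.pi ^ 6 := by
  have h := Real.pi_gt_d2
  have h1 : (3.14 : ℝ) ^ 6 ≤ Real.pi ^ 6 := pow_le_pow_left₀ (by norm_num) h.le 6
  norm_num at h1 ⊢
  linarith

theorem numerics (n : ℕ) (hn : n = 4 ∨ n = 6) :
    6 / 5 ≤ (n.factorial : ℝ) * ((Real.pi * (1 / (2 * (zt n).im))) ^ n / (n + 1).factorial) := by
  rcases hn with rfl | rfl
  · rw [zt_four.2]
    have h := pi_four
    have e1 : ((4 : ℕ).factorial : ℝ) = 24 := by norm_num [Nat.factorial]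
    have e2 : ((4 + 1 : ℕ).factorial : ℝ) = 120 := by norm_num [Nat.factorial]
    rw [e1, e2]
    have e3 : (24 : ℝ) * ((Real.pi * (1 / (2 * 1))) ^ 4 / 120) = Real.pi ^ 4 / 80 := by ring
    rw [e3]
    linarith
  · rw [zt_six.2]
    have h := pi_six
    have e1 : ((6 : ℕ).factorial : ℝ) = 720 := by norm_num [Nat.factorial]
    have e2 : ((6 + 1 : ℕ).factorial : ℝ) = 5040 := by norm_num [Nat.factorial]
    have e4 : (√3 : ℝ) ^ 6 = 27 := by
      have : (√3 : ℝ) ^ 6 = (√3 ^ 2) ^ 3 := by ring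
      rw [this, Real.sq_sqrt (by norm_num)]
      norm_num
    rw [e1, e2]
    have e3 : (720 : ℝ) * ((Real.pi * (1 / (2 * (√3 / 2)))) ^ 6 / 5040) =
        Real.pi ^ 6 / 189 := by
      have h3 : (1 : ℝ) / (2 * (√3 / 2)) = 1 / √3 := by
        congr 1
        ring
      rw [h3, mul_pow, div_pow, e4]
      ring
    rw [e3]
    linarith

theorem zt_range (n : ℕ) (hn : n = 4 ∨ n = 6) :
    0 ≤ (zt n).re ∧ (zt n).re ≤ 1 / 2 ∧ 0 < (zt n).im := by
  rcases hn with rfl | rfl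
  · rw [zt_four.1, zt_four.2]
    norm_num
  · rw [zt_six.1, zt_six.2]
    refine ⟨by norm_num, le_rfl, ?_⟩
    have : (0 : ℝ) < √3 := Real.sqrt_pos.2 (by norm_num)
    positivity

theorem main
    (Γ : Subgroup (V ≃ᵃ[ℂ] V))
    (Λ : AddSubgroup V) (hΛ : ∀ l : V, l ∈ Λ ↔ AffineEquiv.constVAdd ℂ V l ∈ Γ)
    (n : ℕ) (hn : 4 ≤ n) (e : Module.Basis (Fin (2 * n)) ℝ V)
    (hΛe : ∀ l : V, l ∈ Λ ↔ ∃ k : Fin (2 * n) → ℤ, l = ∑ i, (k i : ℝ) • e i)
    (hfin : Finite (Γ.map (AffineEquiv.linearHom : (V ≃ᵃ[ℂ] V) →* (V ≃ₗ[ℂ] V))))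
    (hq : ∀ v : V, (∀ γ ∈ Γ, γ.linear v = v) → v = 0)
    (H : V →ₗ[ℂ] V →ₛₗ[starRingEnd ℂ] ℂ)
    (hherm : ∀ v w, H w v = starRingEnd ℂ (H v w))
    (hnef : ∀ v, 0 ≤ (H v v).re)
    (α : V → ℂ) (hα : ∀ l ∈ Λ, ‖α l‖ = 1)
    (j : (V ≃ᵃ[ℂ] V) → V → ℂ)
    (hjd : ∀ γ ∈ Γ, Differentiable ℂ (j γ))
    (hj0 : ∀ γ ∈ Γ, ∀ v, j γ v ≠ 0)
    (hjmul : ∀ γ ∈ Γ, ∀ δ ∈ Γ, ∀ v, j (γ * δ) v = j γ (δ v) * j δ v)
    (hjΛ : ∀ l ∈ Λ, ∀ v, j (AffineEquiv.constVAdd ℂ V l) v =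
      α l * cexp (Real.pi * H v l + Real.pi / 2 * H l l))
    (b : V → ℝ) (hb0 : ∀ p, 0 ≤ b p) (hbΓ : ∀ γ ∈ Γ, ∀ p, b (γ p) = b p)
    (hrot : ∀ p, b p ≠ 0 → ∃ γ ∈ Γ, ∀ v, γ v = p + cexp (2 * Real.pi * I / n) • (v - p))
    (R : Finset V) (hR1 : ∀ p, b p ≠ 0 → ∃ r ∈ R, p - r ∈ Λ)
    (hR2 : ∀ r ∈ R, ∀ r' ∈ R, r - r' ∈ Λ → r = r')
    (hcurve : ∀ p l : V, ∀ c : ℂ, l ∈ Λ → l ≠ 0 → c • l ∈ Λ → c.im ≠ 0 →
      (∀ d : ℂ, d • l ∈ Λ → ∃ s t : ℤ, d = s + t * c) →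
      ∀ F : Finset V, (∀ q ∈ F, ∃ d : ℂ, q = p + d • l) →
        (∀ q ∈ F, ∀ q' ∈ F, q - q' ∈ Λ → q = q') → ∑ q ∈ F, b q ≤ |(H l (c • l)).im|) :
    ((∀ p, b p = 0) ∧
      ∀ v₀ : V, ∃ s : V → ℂ, Differentiable ℂ s ∧
        (∀ γ ∈ Γ, ∀ v, s (γ v) =
          j γ v ^ Nat.card (Γ.map (AffineEquiv.linearHom : (V ≃ᵃ[ℂ] V) →* (V ≃ₗ[ℂ] V))) * s v) ∧
        s v₀ ≠ 0) ∨
    (0 < ∑ r ∈ R, b r ^ n ∧
      6 / 5 * ∑ r ∈ R, b r ^ n ≤
        n.factorial * √(Matrix.det (Matrix.of fun i j => (H (e i) (e j)).im))) := by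
  classical
  have hemem : ∀ i, e i ∈ Λ := by
    intro i
    rw [hΛe]
    refine ⟨Pi.single i 1, ?_⟩
    rw [Finset.sum_eq_single i]
    · simp
    · intro k _ hk
      simp [Pi.single_eq_of_ne hk]
    · intro h
      exact absurd (Finset.mem_univ i) h
  by_cases hb : ∀ p, b p = 0
  · left
    refine ⟨hb, ?_⟩
    have hspan : Submodule.span ℝ (Λ : Set V) = ⊤ := by
      rw [eq_top_iff, ← e.span_eq, Submodule.span_le]
      rintro _ ⟨i, rfl⟩
      exact Submodule.subset_span (hemem i)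
    exact Pool.Agent.H77.TQ.main Γ Λ hΛ hspan hfin hq H hherm hnef α hα j hjd hj0 hjmul hjΛ
  right
  push Not at hb
  obtain ⟨p0, hp0⟩ := hb
  obtain ⟨γ0, hγ0, hrot0⟩ := hrot p0 hp0
  have hmul : ∀ l ∈ Λ, zt n • l ∈ Λ := fun l hl => rot_mul Γ Λ hΛ (zt n) p0 γ0 hγ0 hrot0 l hl
  have hne : ∃ l ∈ Λ, l ≠ 0 := ⟨e ⟨0, by omega⟩, hemem _, e.ne_zero _⟩
  have hn46 := cryst Λ e hΛe hne n hn hmul
  obtain ⟨hz0, hz1, hz2⟩ := zt_range n hn46
  have hbΛ : ∀ p, ∀ l ∈ Λ, b (p + l) = b p := by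
    intro p l hl
    have h1 := hbΓ _ ((hΛ l).1 hl) p
    rwa [AffineEquiv.constVAdd_apply, vadd_eq_add, add_comm] at h1
  have hbn : n ≠ 0 := by omega
  -- positivity
  have hpos : 0 < ∑ r ∈ R, b r ^ n := by
    obtain ⟨r, hr, hrp⟩ := hR1 p0 hp0
    have h1 : b p0 = b r := by
      rw [← hbΛ r _ hrp, add_sub_cancel]
    have h2 : 0 < b r := lt_of_le_of_ne (hb0 r) (Ne.symm (h1 ▸ hp0))
    exact Finset.sum_pos' (fun i _ => pow_nonneg (hb0 i) n) ⟨r, hr, pow_pos h2 n⟩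
  refine ⟨hpos, ?_⟩
  -- the packing
  set c : ℝ := 1 / (2 * (zt n).im) with hc
  have hc0 : 0 < c := by positivity
  set R1 : Finset V := R.filter (fun r => b r ≠ 0) with hR1def
  set R' : Finset (Fin (2 * n) → ℝ) := R1.image e.equivFun with hR'
  set b' : (Fin (2 * n) → ℝ) → ℝ := fun x => b (∑ i, x i • e i) with hb'
  have hsum : ∀ v : V, ∑ i, (e.equivFun v) i • e i = v := fun v => e.sum_equivFun v
  have hR'pos : ∀ r ∈ R', 0 < b' r := by
    intro r hr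
    obtain ⟨v, hv, rfl⟩ := Finset.mem_image.1 hr
    rw [hb']
    simp only [hsum]
    exact lt_of_le_of_ne (hb0 v) (Ne.symm (Finset.mem_filter.1 hv).2)
  have hpack := pack (by omega : 0 < n) (gram e H) (gram_psd e H hherm hnef) R' b' hR'pos hc0 (by
    intro r hr r' hr' k k' hne'
    obtain ⟨v, hv, rfl⟩ := Finset.mem_image.1 hr
    obtain ⟨w, hw, rfl⟩ := Finset.mem_image.1 hr'
    have hv' := Finset.mem_filter.1 hv
    have hw' := Finset.mem_filter.1 hw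
    set p : V := v + ∑ i, (k i : ℝ) • e i with hp
    set q : V := w + ∑ i, (k' i : ℝ) • e i with hq'
    have hkΛ : ∑ i, (k i : ℝ) • e i ∈ Λ := (hΛe _).2 ⟨k, rfl⟩
    have hk'Λ : ∑ i, (k' i : ℝ) • e i ∈ Λ := (hΛe _).2 ⟨k', rfl⟩
    have hbp : b p = b v := hbΛ v _ hkΛ
    have hbq : b q = b w := hbΛ w _ hk'Λ
    have hpq : q ≠ p := by
      intro heq
      have h1 : v - w ∈ Λ := by
        have h2 : v - w = ∑ i, (k' i : ℝ) • e i - ∑ i, (k i : ℝ) • e i := by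
          rw [sub_eq_sub_iff_add_eq_add, ← hp, add_comm, ← hq', heq]
        rw [h2]
        exact Λ.sub_mem hk'Λ hkΛ
      have h3 := hR2 v hv'.1 w hw'.1 h1
      subst h3
      have h4 : ∑ i, (k' i : ℝ) • e i = ∑ i, (k i : ℝ) • e i := add_left_cancel heq
      have h5 : (fun i => (k' i : ℝ)) = fun i => (k i : ℝ) := by
        apply e.equivFun.symm.injective
        rw [e.equivFun_symm_apply, e.equivFun_symm_apply]
        exact h4
      apply hne'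
      congr 1
      funext i
      have := congrFun h5 i
      exact_mod_cast this.symm
    obtain ⟨γ, hγ, hγr⟩ := hrot p (by rw [hbp]; exact hv'.2)
    obtain ⟨δ, hδ, hδr⟩ := hrot q (by rw [hbq]; exact hw'.2)
    have hx := rot_diff Γ Λ hΛ (zt n) q p δ γ hδ hδr hγ hγr
    have h6 := dist_bound Λ e hΛe H hherm hnef (zt n) (zt_norm n) hz0 hz1 hz2 hmul b hbΛ hcurve
      q p hpq hx
    rw [gram_form]
    have h7 : ∑ i, ((e.equivFun v + fun i => (k i : ℝ)) -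
        (e.equivFun w + fun i => (k' i : ℝ))) i • e i = p - q := by
      simp only [Pi.sub_apply, Pi.add_apply, sub_smul, add_smul, Finset.sum_sub_distrib,
        Finset.sum_add_distrib]
      rw [hsum, hsum]
    have h8 : b' (e.equivFun v) = b v := by
      rw [hb']
      simp only [hsum]
    have h9 : b' (e.equivFun w) = b w := by
      rw [hb']
      simp only [hsum]
    rw [h7, h8, h9, ← hbp, ← hbq, add_comm (b p)]
    exact h6)
  rw [gram_det] at hpack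
  have hsumR : ∑ r ∈ R', (Real.pi * (c * b' r)) ^ n / (n + 1).factorial =
      (Real.pi * c) ^ n / (n + 1).factorial * ∑ r ∈ R, b r ^ n := by
    rw [hR', Finset.sum_image (fun x _ y _ h => e.equivFun.injective h)]
    have h1 : ∑ r ∈ R, b r ^ n = ∑ r ∈ R1, b r ^ n := by
      rw [hR1def, Finset.sum_filter]
      refine Finset.sum_congr rfl fun r _ => ?_
      by_cases h : b r = 0
      · rw [if_neg (not_not.2 h), h, zero_pow hbn]
      · rw [if_pos h]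
    rw [h1, Finset.mul_sum]
    refine Finset.sum_congr rfl fun r _ => ?_
    have h2 : b' (e.equivFun r) = b r := by
      rw [hb']
      simp only [hsum]
    rw [h2]
    ring
  rw [hsumR] at hpack
  have hnum := numerics n hn46
  rw [← hc] at hnum
  calc 6 / 5 * ∑ r ∈ R, b r ^ n
      ≤ ((n.factorial : ℝ) * ((Real.pi * c) ^ n / (n + 1).factorial)) * ∑ r ∈ R, b r ^ n :=
        mul_le_mul_of_nonneg_right hnum hpos.le
    _ = n.factorial * ((Real.pi * c) ^ n / (n + 1).factorial * ∑ r ∈ R, b r ^ n) := by ring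
    _ ≤ n.factorial * √(Matrix.det (Matrix.of fun i j => (H (e i) (e j)).im)) :=
        mul_le_mul_of_nonneg_left hpack (by positivity)

end Pool.Agent.H19.TPB
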