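import Mathlib

/-! Geometry of a lattice with an action of `ζ`, `|ζ| = 1`, `0 ≤ Re ζ ≤ 1/2`. -/

set_option autoImplicit false

namespace Pool.Agent.H19.TPB

open Finset Complex

variable {V : Type*} [NormedAddCommGroup V] [NormedSpace ℂ V] [FiniteDimensional ℂ V]

/-- shortest elements -/
theorem exists_short {m : ℕ} (Λ : AddSubgroup V) (e : Module.Basis (Fin m) ℝ V)
    (hΛe : ∀ l : V, l ∈ Λ ↔ ∃ k : Fin m → ℤ, l = ∑ i, (k i : ℝ) • e i) (S : Set V)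
    (hS : ∀ x ∈ S, x ∈ Λ) (hne : S.Nonempty) : ∃ x ∈ S, ∀ y ∈ S, ‖x‖ ≤ ‖y‖ := by
  obtain ⟨x0, hx0⟩ := hne
  have : FiniteDimensional ℝ V := FiniteDimensional.complexToReal V
  have : ProperSpace V := FiniteDimensional.proper ℝ V
  have h1 : ∀ x : V, x ∈ Λ → x ∈ Submodule.span ℤ (Set.range e) := by
    intro x hx
    obtain ⟨k, rfl⟩ := (hΛe x).1 hx
    refine Submodule.sum_mem _ fun i _ => ?_
    have h2 : ((k i : ℝ) • e i : V) = (k i) • e i := by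
      rw [Int.cast_smul_eq_zsmul]
    rw [h2]
    exact Submodule.smul_mem _ _ (Submodule.subset_span ⟨i, rfl⟩)
  have h2 : (S ∩ Metric.closedBall 0 ‖x0‖).Finite := by
    refine (ZSpan.setFinite_inter e (Metric.isBounded_closedBall (x := (0 : V)) (r := ‖x0‖))).subset ?_
    rintro x ⟨h3, h4⟩
    exact ⟨h4, h1 x (hS x h3)⟩
  obtain ⟨x, hx, hmin⟩ := Set.exists_min_image _ (fun x : V => ‖x‖) h2
    ⟨x0, hx0, by rw [Metric.mem_closedBall, dist_zero_right]⟩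
  refine ⟨x, hx.1, fun y hy => ?_⟩
  rcases le_or_gt ‖y‖ ‖x0‖ with h | h
  · exact hmin y ⟨hy, by rw [Metric.mem_closedBall, dist_zero_right]; exact h⟩
  · have := hx.2
    rw [Metric.mem_closedBall, dist_zero_right] at this
    linarith

private theorem sq_bound {a b ρ : ℝ} (ha : |a| ≤ 1 / 2) (hb : |b| ≤ 1 / 2) (h0 : 0 ≤ ρ)
    (h1 : ρ ≤ 1 / 2) : a ^ 2 + b ^ 2 + 2 * ρ * (a * b) < 1 := by
  rw [abs_le] at ha hb
  have h2 : a * b ≤ 1 / 4 := by nlinarith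
  have h3 : -(1 / 4) ≤ a * b := by nlinarith
  have h4 : a ^ 2 ≤ 1 / 4 := by nlinarith
  have h5 : b ^ 2 ≤ 1 / 4 := by nlinarith
  nlinarith [mul_nonneg h0 (sub_nonneg.2 h2)]

theorem normSq_comb (ζ : ℂ) (hζ : ‖ζ‖ = 1) (a b : ℝ) :
    ‖(a : ℂ) + b * ζ‖ ^ 2 = a ^ 2 + b ^ 2 + 2 * ζ.re * (a * b) := by
  have h1 : ζ.re ^ 2 + ζ.im ^ 2 = 1 := by
    have := Complex.sq_norm ζ
    rw [hζ, Complex.normSq_apply] at this
    linarith
  rw [Complex.sq_norm, Complex.normSq_apply]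
  simp only [add_re, ofReal_re, mul_re, ofReal_im, zero_mul, sub_zero, add_im, mul_im, zero_add,
    add_zero]
  linear_combination b ^ 2 * h1

/-- a generator of the lattice in a complex line -/
theorem exists_gen {m : ℕ} (Λ : AddSubgroup V) (e : Module.Basis (Fin m) ℝ V)
    (hΛe : ∀ l : V, l ∈ Λ ↔ ∃ k : Fin m → ℤ, l = ∑ i, (k i : ℝ) • e i)
    (ζ : ℂ) (hζ : ‖ζ‖ = 1) (h0 : 0 ≤ ζ.re) (h1 : ζ.re ≤ 1 / 2) (him : ζ.im ≠ 0)
    (hmul : ∀ l ∈ Λ, ζ • l ∈ Λ) (x : V) (hx : x ∈ Λ) (hx0 : x ≠ 0) :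
    ∃ l ∈ Λ, l ≠ 0 ∧ (∃ s t : ℤ, x = ((s : ℂ) + t * ζ) • l) ∧
      ∀ d : ℂ, d • l ∈ Λ → ∃ s t : ℤ, d = s + t * ζ := by
  obtain ⟨l, ⟨hl1, hl2, c0, hc0⟩, hmin⟩ := exists_short Λ e hΛe
    {y | y ∈ Λ ∧ y ≠ 0 ∧ ∃ c : ℂ, y = c • x} (fun y hy => hy.1) ⟨x, hx, hx0, 1, by simp⟩
  have hgen : ∀ d : ℂ, d • l ∈ Λ → ∃ s t : ℤ, d = s + t * ζ := by
    intro d hd
    set b : ℝ := d.im / ζ.im with hb
    set a : ℝ := d.re - b * ζ.re with ha
    have hdab : d = (a : ℂ) + b * ζ := by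
      apply Complex.ext
      · simp only [add_re, ofReal_re, mul_re, ofReal_im, zero_mul, sub_zero]
        rw [ha]
        ring
      · simp only [add_im, ofReal_im, mul_im, ofReal_re, zero_mul, add_zero, zero_add]
        rw [hb]
        field_simp
    set y : V := (d - ((round a : ℤ) + (round b : ℤ) * ζ)) • l with hy
    have hyΛ : y ∈ Λ := by
      rw [hy, sub_smul, add_smul, mul_smul]
      refine Λ.sub_mem hd (Λ.add_mem ?_ ?_)
      · rw [Int.cast_smul_eq_zsmul]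
        exact Λ.zsmul_mem hl1 _
      · rw [Int.cast_smul_eq_zsmul]
        exact Λ.zsmul_mem (hmul l hl1) _
    by_cases hy0 : y = 0
    · rw [hy, smul_eq_zero] at hy0
      rcases hy0 with hy0 | hy0
      · exact ⟨round a, round b, sub_eq_zero.1 hy0⟩
      · exact absurd hy0 hl2
    · exfalso
      have h2 := hmin y ⟨hyΛ, hy0, (d - ((round a : ℤ) + (round b : ℤ) * ζ)) * c0, by
        rw [mul_smul, ← hc0]⟩
      rw [hy, norm_smul] at h2
      have h3 : ‖d - ((round a : ℤ) + (round b : ℤ) * ζ)‖ ^ 2 < 1 := by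
        have h4 : d - ((round a : ℤ) + (round b : ℤ) * ζ) =
            ((a - round a : ℝ) : ℂ) + ((b - round b : ℝ) : ℂ) * ζ := by
          rw [hdab]
          push_cast
          ring
        rw [h4, normSq_comb ζ hζ]
        exact sq_bound (abs_sub_round a) (abs_sub_round b) h0 h1
      have h5 : ‖d - ((round a : ℤ) + (round b : ℤ) * ζ)‖ < 1 := by
        by_contra hc
        push Not at hc
        have := pow_le_pow_left₀ zero_le_one hc 2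
        linarith
      have h6 : 0 < ‖l‖ := norm_pos_iff.2 hl2
      nlinarith
  refine ⟨l, hl1, hl2, ?_, hgen⟩
  have hc0' : c0 ≠ 0 := by
    rintro rfl
    rw [zero_smul] at hc0
    exact hl2 hc0
  obtain ⟨s, t, hst⟩ := hgen c0⁻¹ (by
    rw [hc0, smul_smul, inv_mul_cancel₀ hc0', one_smul]
    exact hx)
  refine ⟨s, t, ?_⟩
  rw [← hst, hc0, smul_smul, inv_mul_cancel₀ hc0', one_smul]

theorem one_le_normSq (ζ : ℂ) (hζ : ‖ζ‖ = 1) (h0 : 0 ≤ ζ.re) (h1 : ζ.re ≤ 1 / 2) (s t : ℤ)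
    (h : (s : ℂ) + t * ζ ≠ 0) : 1 ≤ ‖(s : ℂ) + t * ζ‖ ^ 2 := by
  have h2 := normSq_comb ζ hζ (s : ℝ) (t : ℝ)
  simp only [ofReal_intCast] at h2
  rw [h2]
  have h3 : (1 : ℤ) ≤ s ^ 2 + t ^ 2 - |s * t| := by
    by_contra hc
    push Not at hc
    have h4 : s ^ 2 + t ^ 2 - |s * t| ≤ 0 := by omega
    have h5 : |s * t| = |s| * |t| := abs_mul s t
    have h6 : s ^ 2 = |s| ^ 2 := (sq_abs s).symm
    have h7 : t ^ 2 = |t| ^ 2 := (sq_abs t).symm
    have h8 := abs_nonneg s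
    have h9 := abs_nonneg t
    have h10 : |s| = 0 := by nlinarith [sq_nonneg (|s| - |t|), mul_nonneg h8 h9]
    have h11 : |t| = 0 := by nlinarith [sq_nonneg (|s| - |t|), mul_nonneg h8 h9]
    rw [abs_eq_zero] at h10 h11
    rw [h10, h11] at h
    simp at h
  have h4 : (1 : ℝ) ≤ (s : ℝ) ^ 2 + (t : ℝ) ^ 2 - |(s : ℝ) * t| := by
    exact_mod_cast h3
  have h5 : -|(s : ℝ) * t| ≤ 2 * ζ.re * ((s : ℝ) * t) := by
    have h6 := neg_abs_le ((s : ℝ) * t)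
    have h7 := abs_nonneg ((s : ℝ) * t)
    nlinarith
  linarith

end Pool.Agent.H19.TPB
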