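import Pool.Agent.H19.TPB.Pack

/-! Blichfeldt's bound for positive semidefinite forms. -/

set_option autoImplicit false

namespace Pool.Agent.H19.TPB

open Finset MeasureTheory
open scoped MatrixOrder

theorem norm_emb {m : ℕ} (B : Matrix (Fin m) (Fin m) ℝ) (x : Fin m → ℝ) :
    ‖emb B x‖ ^ 2 = dotProduct x ((B.transpose * B).mulVec x) := by
  have h1 : ‖emb B x‖ ^ 2 = dotProduct (B.mulVec x) (B.mulVec x) := by
    rw [EuclideanSpace.norm_sq_eq]
    unfold dotProduct emb
    refine Finset.sum_congr rfl fun i _ => ?_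
    rw [Real.norm_eq_abs, sq_abs, sq]
  rw [h1, ← Matrix.mulVec_mulVec, Matrix.dotProduct_mulVec x, Matrix.vecMul_transpose]

theorem pack {n : ℕ} (hn : 0 < n) (G : Matrix (Fin (2 * n)) (Fin (2 * n)) ℝ)
    (hG : G.PosSemidef) (R : Finset (Fin (2 * n) → ℝ)) (b : (Fin (2 * n) → ℝ) → ℝ)
    (hb : ∀ r ∈ R, 0 < b r) {c : ℝ} (hc : 0 < c)
    (hd : ∀ r ∈ R, ∀ r' ∈ R, ∀ k k' : Fin (2 * n) → ℤ, (r, k) ≠ (r', k') →
      c * (b r + b r') ≤ dotProduct ((r + fun i => (k i : ℝ)) - (r' + fun i => (k' i : ℝ)))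
        (G.mulVec ((r + fun i => (k i : ℝ)) - (r' + fun i => (k' i : ℝ))))) :
    ∑ r ∈ R, (Real.pi * (c * b r)) ^ n / (n + 1).factorial ≤ √ G.det := by
  have key : ∀ ε : ℝ, 0 < ε → ∑ r ∈ R, (Real.pi * (c * b r)) ^ n / (n + 1).factorial ≤
      √ (G + ε • (1 : Matrix (Fin (2 * n)) (Fin (2 * n)) ℝ)).det := by
    intro ε hε
    have hpd : (G + ε • (1 : Matrix (Fin (2 * n)) (Fin (2 * n)) ℝ)).PosDef :=
      Matrix.PosDef.posSemidef_add hG (Matrix.PosDef.one.smul hε)
    obtain ⟨B, hB⟩ := CStarAlgebra.nonneg_iff_eq_star_mul_self.mp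
      (Matrix.PosSemidef.nonneg hpd.posSemidef)
    rw [Matrix.star_eq_conjTranspose, Matrix.conjTranspose_eq_transpose_of_trivial] at hB
    have hdet : (G + ε • (1 : Matrix (Fin (2 * n)) (Fin (2 * n)) ℝ)).det = B.det ^ 2 := by
      rw [hB, Matrix.det_mul, Matrix.det_transpose, sq]
    have hB0 : B.det ≠ 0 := by
      intro h
      have := hpd.det_pos
      rw [hdet, h] at this
      simp at this
    rw [hdet, Real.sqrt_sq_eq_abs]
    apply packPD hn B hB0 R b hb hc
    intro r hr r' hr' k k' hne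
    refine (hd r hr r' hr' k k' hne).trans ?_
    rw [norm_emb, ← hB, Matrix.add_mulVec, dotProduct_add, Matrix.smul_mulVec,
      Matrix.one_mulVec, dotProduct_smul, smul_eq_mul]
    have := dotProduct_self_star_nonneg
      ((r + fun i => (k i : ℝ)) - (r' + fun i => (k' i : ℝ)))
    rw [star_trivial] at this
    nlinarith
  have hcont : Continuous (fun ε : ℝ =>
      √ (G + ε • (1 : Matrix (Fin (2 * n)) (Fin (2 * n)) ℝ)).det) := by
    apply Real.continuous_sqrt.comp
    apply Continuous.matrix_det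
    exact continuous_const.add (continuous_id.smul continuous_const)
  have hlim : Filter.Tendsto (fun ε : ℝ =>
      √ (G + ε • (1 : Matrix (Fin (2 * n)) (Fin (2 * n)) ℝ)).det) (nhdsWithin 0 (Set.Ioi 0))
      (nhds (√ G.det)) := by
    have := (hcont.tendsto 0).mono_left (nhdsWithin_le_nhds (s := Set.Ioi (0 : ℝ)))
    simpa using this
  apply ge_of_tendsto hlim
  filter_upwards [self_mem_nhdsWithin] with ε hε
  exact key ε hε

end Pool.Agent.H19.TPB
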