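import Pool.Agent.H19.TPB.Dist
import Pool.Agent.H19.TPB.Psd

/-! The Gram matrix of the form on the lattice. -/

set_option autoImplicit false
set_option linter.unusedSectionVars false

namespace Pool.Agent.H19.TPB

open Finset Complex

variable {V : Type*} [NormedAddCommGroup V] [NormedSpace ℂ V] [FiniteDimensional ℂ V]

theorem real_left (H : V →ₗ[ℂ] V →ₛₗ[starRingEnd ℂ] ℂ) (r : ℝ) (x y : V) :
    H (r • x) y = (r : ℂ) * H x y := by
  have h : H (r • x) = (r : ℂ) • H x := by
    rw [← Complex.coe_smul, LinearMap.map_smul H]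
  rw [h, LinearMap.smul_apply, smul_eq_mul]

theorem real_right (H : V →ₗ[ℂ] V →ₛₗ[starRingEnd ℂ] ℂ) (r : ℝ) (x y : V) :
    H x (r • y) = (r : ℂ) * H x y := by
  rw [← Complex.coe_smul, LinearMap.map_smulₛₗ (H x), Complex.conj_ofReal, smul_eq_mul]

theorem sum_left (H : V →ₗ[ℂ] V →ₛₗ[starRingEnd ℂ] ℂ) {m : ℕ} (x : Fin m → ℝ) (e : Fin m → V)
    (y : V) : H (∑ i, x i • e i) y = ∑ i, (x i : ℂ) * H (e i) y := by
  rw [map_sum, LinearMap.sum_apply]
  exact Finset.sum_congr rfl fun i _ => real_left H _ _ _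

theorem sum_right (H : V →ₗ[ℂ] V →ₛₗ[starRingEnd ℂ] ℂ) {m : ℕ} (x : Fin m → ℝ) (e : Fin m → V)
    (y : V) : H y (∑ i, x i • e i) = ∑ i, (x i : ℂ) * H y (e i) := by
  rw [map_sum]
  exact Finset.sum_congr rfl fun i _ => real_right H _ _ _

/-- the Gram matrix -/
noncomputable def gram {m : ℕ} (e : Fin m → V) (H : V →ₗ[ℂ] V →ₛₗ[starRingEnd ℂ] ℂ) :
    Matrix (Fin m) (Fin m) ℝ := Matrix.of fun i j => (H (e i) (e j)).re

theorem gram_form {m : ℕ} (e : Fin m → V) (H : V →ₗ[ℂ] V →ₛₗ[starRingEnd ℂ] ℂ) (x : Fin m → ℝ) :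
    dotProduct x ((gram e H).mulVec x) = (H (∑ i, x i • e i) (∑ i, x i • e i)).re := by
  rw [sum_left, Complex.re_sum]
  unfold dotProduct Matrix.mulVec dotProduct gram
  refine Finset.sum_congr rfl fun i _ => ?_
  rw [sum_right, Complex.re_ofReal_mul, Complex.re_sum]
  congr 1
  refine Finset.sum_congr rfl fun j _ => ?_
  rw [Complex.re_ofReal_mul]
  exact mul_comm _ _

theorem gram_psd {m : ℕ} (e : Fin m → V) (H : V →ₗ[ℂ] V →ₛₗ[starRingEnd ℂ] ℂ)
    (hherm : ∀ v w, H w v = starRingEnd ℂ (H v w)) (hnef : ∀ v, 0 ≤ (H v v).re) :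
    (gram e H).PosSemidef := by
  refine Matrix.PosSemidef.of_dotProduct_mulVec_nonneg ?_ ?_
  · ext i j
    rw [Matrix.conjTranspose_apply, star_trivial]
    unfold gram
    rw [Matrix.of_apply, Matrix.of_apply, hherm (e i) (e j), Complex.conj_re]
  · intro x
    rw [star_trivial, gram_form]
    exact hnef _

theorem gram_det {m : ℕ} (e : Module.Basis (Fin m) ℝ V)
    (H : V →ₗ[ℂ] V →ₛₗ[starRingEnd ℂ] ℂ) :
    (gram e H).det = Matrix.det (Matrix.of fun i j => (H (e i) (e j)).im) := by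
  set f : V →ₗ[ℂ] V := (I : ℂ) • LinearMap.id with hf
  set J : Matrix (Fin m) (Fin m) ℝ := LinearMap.toMatrix e e (f.restrictScalars ℝ) with hJ
  have hJ1 : J.det = 1 := by
    rw [hJ, LinearMap.det_toMatrix, LinearMap.det_restrictScalars, hf, LinearMap.det_smul,
      LinearMap.det_id, mul_one, Algebra.norm_complex_apply, map_pow, Complex.normSq_I, one_pow]
  have hG : gram e H = J.transpose * Matrix.of fun i j => (H (e i) (e j)).im := by
    ext i j
    rw [Matrix.mul_apply]
    have h1 : (H (e i) (e j)).re = (H (f (e i)) (e j)).im := by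
      have h2 : H (f (e i)) = I • H (e i) := by
        rw [hf, LinearMap.smul_apply, LinearMap.id_apply, LinearMap.map_smul H]
      rw [h2, LinearMap.smul_apply, smul_eq_mul, Complex.I_mul_im]
    have h3 : f (e i) = ∑ k, J k i • e k := by
      have h4 := e.sum_repr (f (e i))
      rw [← h4]
      refine Finset.sum_congr rfl fun k _ => ?_
      rw [hJ, LinearMap.toMatrix_apply, LinearMap.restrictScalars_apply]
    unfold gram
    rw [Matrix.of_apply, h1, h3, sum_left, Complex.im_sum]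
    refine Finset.sum_congr rfl fun k _ => ?_
    rw [Complex.im_ofReal_mul, Matrix.transpose_apply, Matrix.of_apply]
  rw [hG, Matrix.det_mul, Matrix.det_transpose, hJ1, one_mul]

end Pool.Agent.H19.TPB
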