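import Pool.Agent.H19.TPB.Vol

/-! Blichfeldt's bound for a packing in the torus `ℝ^(2n) / ℤ^(2n)` with a flat metric. -/

set_option autoImplicit false

namespace Pool.Agent.H19.TPB

open Finset MeasureTheory

/-- the vector `B x` in Euclidean space -/
noncomputable def emb {m : ℕ} (B : Matrix (Fin m) (Fin m) ℝ) (x : Fin m → ℝ) :
    EuclideanSpace ℝ (Fin m) := WithLp.toLp 2 (B.mulVec x)

theorem emb_sub {m : ℕ} (B : Matrix (Fin m) (Fin m) ℝ) (x y : Fin m → ℝ) :
    emb B (x - y) = emb B x - emb B y := by
  unfold emb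
  rw [Matrix.mulVec_sub]
  rfl

theorem lintegral_emb {n : ℕ} (hn : 0 < n) (B : Matrix (Fin (2 * n)) (Fin (2 * n)) ℝ)
    (hB : B.det ≠ 0) {c b : ℝ} (hc : 0 < c) (hb : 0 < b) :
    ∫⁻ x : Fin (2 * n) → ℝ, ENNReal.ofReal (cut c b (emb B x)) =
      ENNReal.ofReal (|B.det|⁻¹ * ((Real.pi * (c * b)) ^ n / (n + 1).factorial)) := by
  have h1 : Measurable (fun y : Fin (2 * n) → ℝ =>
      ENNReal.ofReal (cut c b (WithLp.toLp 2 y : EuclideanSpace ℝ (Fin (2 * n))))) := by
    apply ENNReal.measurable_ofReal.comp
    apply Continuous.measurable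
    exact (cut_continuous c b).comp (PiLp.continuous_toLp 2 _)
  have h2 : ∫⁻ x : Fin (2 * n) → ℝ, ENNReal.ofReal (cut c b (emb B x)) =
      ∫⁻ y, ENNReal.ofReal (cut c b (WithLp.toLp 2 y : EuclideanSpace ℝ (Fin (2 * n))))
        ∂(Measure.map (Matrix.toLin' B) volume) := by
    rw [lintegral_map h1]
    · rfl
    · exact (LinearMap.continuous_of_finiteDimensional _).measurable
  rw [h2, Real.map_matrix_volume_pi_eq_smul_volume_pi hB, lintegral_smul_measure]
  have h3 := (PiLp.volume_preserving_toLp (Fin (2 * n))).lintegral_comp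
    (f := fun y : EuclideanSpace ℝ (Fin (2 * n)) => ENNReal.ofReal (cut c b y))
    (ENNReal.measurable_ofReal.comp (cut_continuous c b).measurable)
  rw [h3, lintegral_cut hn hc hb, smul_eq_mul, ← ENNReal.ofReal_mul (abs_nonneg _), abs_inv]

theorem packPD {n : ℕ} (hn : 0 < n) (B : Matrix (Fin (2 * n)) (Fin (2 * n)) ℝ)
    (hB : B.det ≠ 0) (R : Finset (Fin (2 * n) → ℝ)) (b : (Fin (2 * n) → ℝ) → ℝ)
    (hb : ∀ r ∈ R, 0 < b r) {c : ℝ} (hc : 0 < c)
    (hd : ∀ r ∈ R, ∀ r' ∈ R, ∀ k k' : Fin (2 * n) → ℤ, (r, k) ≠ (r', k') →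
      c * (b r + b r') ≤ ‖emb B ((r + fun i => (k i : ℝ)) - (r' + fun i => (k' i : ℝ)))‖ ^ 2) :
    ∑ r ∈ R, (Real.pi * (c * b r)) ^ n / (n + 1).factorial ≤ |B.det| := by
  classical
  set L := (Submodule.span ℤ (Set.range (Pi.basisFun ℝ (Fin (2 * n))))).toAddSubgroup with hL
  set D := ZSpan.fundamentalDomain (Pi.basisFun ℝ (Fin (2 * n))) with hD
  have hfd : IsAddFundamentalDomain L D (volume : Measure (Fin (2 * n) → ℝ)) :=
    ZSpan.isAddFundamentalDomain' _ _
  have hvol : volume D = 1 := by
    rw [hD, ZSpan.volume_fundamentalDomain]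
    have : (Matrix.of (Pi.basisFun ℝ (Fin (2 * n)) : Fin (2 * n) → Fin (2 * n) → ℝ)) =
        (1 : Matrix (Fin (2 * n)) (Fin (2 * n)) ℝ) := by
      ext i j
      simp [Matrix.one_apply, Pi.single_apply, eq_comm]
    rw [this, Matrix.det_one, abs_one, ENNReal.ofReal_one]
  have hint : ∀ g : L, ∃ k : Fin (2 * n) → ℤ, (g : Fin (2 * n) → ℝ) = fun i => (k i : ℝ) := by
    intro g
    have h1 := (Module.Basis.mem_span_iff_repr_mem ℤ (Pi.basisFun ℝ (Fin (2 * n))) _).1 g.2
    choose k hk using h1
    refine ⟨k, funext fun i => ?_⟩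
    have h2 := hk i
    rw [Pi.basisFun_repr] at h2
    simpa using h2.symm
  choose kk hkk using hint
  have hcount : Countable L := Function.Injective.countable (f := kk) (by
    intro g g' h
    apply Subtype.ext
    rw [hkk, hkk, h])
  set F : (Fin (2 * n) → ℝ) → (Fin (2 * n) → ℝ) → ENNReal :=
    fun r x => ENNReal.ofReal (cut c (b r) (emb B (x - r))) with hF
  -- each integral
  have hI : ∀ r ∈ R, ∫⁻ x, F r x =
      ENNReal.ofReal (|B.det|⁻¹ * ((Real.pi * (c * b r)) ^ n / (n + 1).factorial)) := by
    intro r hr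
    rw [hF]
    simp only
    rw [lintegral_sub_right_eq_self (fun x => ENNReal.ofReal (cut c (b r) (emb B x))) r]
    exact lintegral_emb hn B hB hc (hb r hr)
  -- unfolding
  have hU : ∀ r ∈ R, ∫⁻ x, F r x = ∫⁻ x in D, ∑' g : L, F r (g +ᵥ x) := by
    intro r _
    rw [hfd.lintegral_eq_tsum'', lintegral_tsum]
    intro g
    apply Measurable.aemeasurable
    apply ENNReal.measurable_ofReal.comp
    apply Continuous.measurable
    apply (cut_continuous c (b r)).comp
    apply (PiLp.continuous_toLp 2 _).comp
    apply Continuous.matrix_mulVec continuous_const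
    apply Continuous.sub _ continuous_const
    exact continuous_const.add continuous_id
  have hsumle : ∫⁻ x in D, ∑ r ∈ R, ∑' g : L, F r (g +ᵥ x) ≤ 1 := by
    calc ∫⁻ x in D, ∑ r ∈ R, ∑' g : L, F r (g +ᵥ x) ≤ ∫⁻ x in D, 1 := by
          apply lintegral_mono
          intro x
          show ∑ r ∈ R, ∑' g : L, F r (g +ᵥ x) ≤ 1
          rw [← Summable.tsum_finsetSum (fun _ _ => ENNReal.summable)]
          apply ENNReal.summable.tsum_le_of_sum_le
          intro S
          have h1 : ∑ g ∈ S, ∑ r ∈ R, F r (g +ᵥ x) =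
              ENNReal.ofReal (∑ p ∈ S ×ˢ R, cut c (b p.2) (emb B x -
                emb B (p.2 - (p.1 : Fin (2 * n) → ℝ)))) := by
            rw [ENNReal.ofReal_sum_of_nonneg fun _ _ => cut_nonneg _ _ _, Finset.sum_product]
            refine Finset.sum_congr rfl fun g _ => Finset.sum_congr rfl fun r _ => ?_
            rw [hF]
            simp only
            rw [← emb_sub]
            congr 3
            show ((g : Fin (2 * n) → ℝ) + x) - r = x - (r - (g : Fin (2 * n) → ℝ))
            abel
          rw [h1]
          rw [← ENNReal.ofReal_one]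
          apply ENNReal.ofReal_le_ofReal
          apply blich (S ×ˢ R) hc (fun p => b p.2)
            (fun p hp => hb _ (Finset.mem_product.1 hp).2)
            (fun p => emb B (p.2 - (p.1 : Fin (2 * n) → ℝ)))
          intro p hp q hq hpq
          have h2 := hd p.2 (Finset.mem_product.1 hp).2 q.2 (Finset.mem_product.1 hq).2
            (fun i => - kk p.1 i) (fun i => - kk q.1 i) (by
              intro h
              apply hpq
              have h3 := (Prod.mk.inj h).1
              have h4 := (Prod.mk.inj h).2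
              refine Prod.ext ?_ h3
              apply Subtype.ext
              rw [hkk p.1, hkk q.1]
              funext i
              have := congrFun h4 i
              simp only [neg_inj] at this
              rw [this])
          refine h2.trans (le_of_eq ?_)
          rw [← emb_sub]
          congr 3
          rw [hkk p.1, hkk q.1]
          funext i
          simp only [Pi.add_apply, Pi.sub_apply]
          push_cast
          ring
      _ = 1 := by
          rw [lintegral_one, Measure.restrict_apply_univ, hvol]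
  rw [lintegral_finsetSum'] at hsumle
  · rw [← Finset.sum_congr rfl hU, Finset.sum_congr rfl hI,
      ← ENNReal.ofReal_sum_of_nonneg, ← ENNReal.ofReal_one, ENNReal.ofReal_le_ofReal_iff zero_le_one,
      ← Finset.mul_sum, inv_mul_le_iff₀ (abs_pos.2 hB), mul_one] at hsumle
    · exact hsumle
    · intro r hr
      have := hb r hr
      have := Real.pi_pos
      positivity
  · intro r _
    apply Measurable.aemeasurable
    apply Measurable.tsum
    intro g
    apply ENNReal.measurable_ofReal.comp
    apply Continuous.measurable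
    apply (cut_continuous c (b r)).comp
    apply (PiLp.continuous_toLp 2 _).comp
    apply Continuous.matrix_mulVec continuous_const
    apply Continuous.sub _ continuous_const
    exact continuous_const.add continuous_id

end Pool.Agent.H19.TPB
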