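import Pool.Agent.H19.TPB.Blich

/-! Integral of the cut-off function and Blichfeldt's bound for a packing in a torus. -/

set_option autoImplicit false

namespace Pool.Agent.H19.TPB

open Finset MeasureTheory

theorem integral_cut {n : ℕ} (hn : 0 < n) {c b : ℝ} (hc : 0 < c) (hb : 0 < b) :
    ∫ y : EuclideanSpace ℝ (Fin (2 * n)), cut c b y =
      (Real.pi * (c * b)) ^ n / (n + 1).factorial := by
  set ρ : ℝ := c * b with hρ
  have hρ0 : 0 < ρ := mul_pos hc hb
  have h0 : ∀ y : EuclideanSpace ℝ (Fin (2 * n)),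
      cut c b y = (fun t : ℝ => max 0 (1 - t ^ 2 / ρ)) ‖y‖ := fun y => rfl
  simp only [h0]
  have : Nonempty (Fin (2 * n)) := ⟨⟨0, by omega⟩⟩
  have : Nontrivial (EuclideanSpace ℝ (Fin (2 * n))) := by
    apply Module.nontrivial_of_finrank_pos (R := ℝ)
    rw [finrank_euclideanSpace_fin]
    omega
  rw [integral_fun_norm_addHaar (volume : Measure (EuclideanSpace ℝ (Fin (2 * n))))
    (fun t : ℝ => max 0 (1 - t ^ 2 / ρ))]
  rw [finrank_euclideanSpace_fin]
  have h1 : volume.real (Metric.ball (0 : EuclideanSpace ℝ (Fin (2 * n))) 1) =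
      Real.pi ^ n / n.factorial := by
    rw [Measure.real, EuclideanSpace.volume_ball, ENNReal.ofReal_one, one_pow, one_mul,
      Fintype.card_fin, ENNReal.toReal_ofReal (by positivity)]
    have e1 : √Real.pi ^ (2 * n) = Real.pi ^ n := by
      rw [pow_mul, Real.sq_sqrt Real.pi_pos.le]
    have e2 : ((2 * n : ℕ) : ℝ) / 2 + 1 = (n : ℝ) + 1 := by
      push_cast
      ring
    rw [e1, e2, Real.Gamma_nat_eq_factorial]
  rw [h1]
  have h2 : ∫ y in Set.Ioi (0 : ℝ), y ^ (2 * n - 1) • max 0 (1 - y ^ 2 / ρ) =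
      ρ ^ n / (2 * n * (n + 1)) := by
    have h3 : ∫ y in Set.Ioi (0 : ℝ), y ^ (2 * n - 1) • max 0 (1 - y ^ 2 / ρ) =
        ∫ y in Set.Ioc (0 : ℝ) (√ρ), (y ^ (2 * n - 1) - y ^ (2 * n + 1) / ρ) := by
      have h3a : ∫ y in Set.Ioi (0 : ℝ), y ^ (2 * n - 1) • max 0 (1 - y ^ 2 / ρ) =
          ∫ y in Set.Ioc (0 : ℝ) (√ρ), y ^ (2 * n - 1) • max 0 (1 - y ^ 2 / ρ) := by
        apply setIntegral_eq_of_subset_of_forall_sdiff_eq_zero measurableSet_Ioi
          Set.Ioc_subset_Ioi_self
        intro y hy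
        have h4 : √ρ < y := by
          by_contra hcon
          exact hy.2 ⟨hy.1, not_lt.1 hcon⟩
        have h5 : ρ ≤ y ^ 2 := by
          have := pow_le_pow_left₀ (Real.sqrt_nonneg ρ) h4.le 2
          rwa [Real.sq_sqrt hρ0.le] at this
        have h6 : 1 - y ^ 2 / ρ ≤ 0 := by
          rw [sub_nonpos, one_le_div hρ0]
          exact h5
        rw [max_eq_left h6, smul_zero]
      rw [h3a]
      apply setIntegral_congr_fun measurableSet_Ioc
      intro y hy
      have h4 : y ^ 2 ≤ ρ := by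
        have := pow_le_pow_left₀ hy.1.le hy.2 2
        rwa [Real.sq_sqrt hρ0.le] at this
      have h5 : 0 ≤ 1 - y ^ 2 / ρ := by
        rw [sub_nonneg, div_le_one hρ0]
        exact h4
      simp only [smul_eq_mul]
      rw [max_eq_right h5, mul_sub, mul_one]
      congr 1
      rw [← mul_div_assoc, ← pow_add]
      congr 2
      omega
    rw [h3, ← intervalIntegral.integral_of_le (Real.sqrt_nonneg ρ),
      intervalIntegral.integral_sub ((continuous_pow _).intervalIntegrable _ _)
        (((continuous_pow _).div_const _).intervalIntegrable _ _),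
      intervalIntegral.integral_div, integral_pow, integral_pow]
    have e1 : 2 * n - 1 + 1 = 2 * n := by omega
    have e2 : 2 * n + 1 + 1 = 2 * (n + 1) := by omega
    have e3 : √ρ ^ (2 * n) = ρ ^ n := by rw [pow_mul, Real.sq_sqrt hρ0.le]
    have e4 : √ρ ^ (2 * (n + 1)) = ρ ^ (n + 1) := by rw [pow_mul, Real.sq_sqrt hρ0.le]
    have e5 : ((2 * n - 1 : ℕ) : ℝ) + 1 = 2 * n := by
      have : ((2 * n - 1 + 1 : ℕ) : ℝ) = ((2 * n : ℕ) : ℝ) := by rw [e1]
      push_cast at this ⊢
      exact this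
    rw [e1, e2, e3, e4, e5]
    have hn' : (n : ℝ) ≠ 0 := by positivity
    rw [zero_pow (by omega), zero_pow (by omega), sub_zero, sub_zero]
    push_cast
    field_simp
    ring
  rw [h2, nsmul_eq_mul, smul_eq_mul, Nat.factorial_succ, mul_pow]
  have hn' : (n : ℝ) ≠ 0 := by positivity
  push_cast
  field_simp
  rw [hρ]
  ring

theorem cut_continuous {E : Type*} [NormedAddCommGroup E] (c b : ℝ) :
    Continuous (fun y : E => cut c b y) := by
  unfold cut
  fun_prop

theorem lintegral_cut {n : ℕ} (hn : 0 < n) {c b : ℝ} (hc : 0 < c) (hb : 0 < b) :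
    ∫⁻ y : EuclideanSpace ℝ (Fin (2 * n)), ENNReal.ofReal (cut c b y) =
      ENNReal.ofReal ((Real.pi * (c * b)) ^ n / (n + 1).factorial) := by
  rw [← integral_cut hn hc hb, ofReal_integral_eq_lintegral_ofReal]
  · apply (cut_continuous c b).integrable_of_hasCompactSupport
    apply HasCompactSupport.of_support_subset_isCompact
      (isCompact_closedBall (0 : EuclideanSpace ℝ (Fin (2 * n))) (√(c * b)))
    intro y hy
    rw [Function.mem_support] at hy
    have h1 : 0 < cut c b y := lt_of_le_of_ne (cut_nonneg _ _ _) (Ne.symm hy)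
    have h2 := cut_of_pos h1
    rw [h2, sub_pos, div_lt_one (mul_pos hc hb)] at h1
    rw [Metric.mem_closedBall, dist_zero_right]
    exact Real.le_sqrt_of_sq_le h1.le
  · exact Filter.Eventually.of_forall fun y => cut_nonneg _ _ _

end Pool.Agent.H19.TPB
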